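import Pool.Agent.Lib.MP_f31b39_co.AS.Fam
import Pool.Agent.Lib.MP_f31b39_co.AS.DSph
import Pool.Agent.Lib.MP_f31b39_co.AS.Even2
import Pool.Agent.Lib.MP_f31b39_co.T7.Par

/-!
# T8-Eq: the equation of a character for odd `t = 2 e + 1`, and all elements are odd if `2 ∣ n`
-/

namespace TightIndep.T8

open Finset

private theorem dball_sum {G : Type} [AddCommGroup G] [Fintype G] {m : ℕ} (e : ℕ)
    (a : Fin (m + 1) → G)
    (h : ∀ v ∈ rel a, v ≠ 0 → 2 * e + 2 ≤ nrm v) (hG : Fintype.card G = bound (m + 1) (2 * e + 1))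
    (d : Fin (m + 1) × Bool) :
    (∀ g : G, ∃ u ∈ dball (e + 1) d, ∑ i, u i • a i = g) ∧
      ∀ f : G → ℂ, ∑ u ∈ dball (e + 1) d, f (∑ i, u i • a i) = ∑ g, f g := by
  apply sum_image_fam (2 * e + 1) a h
  · intro u hu u' hu'
    rw [mem_dball] at hu hu'
    have h3 := nrm_sub_le u u'
    have h4 := nrm_sub_le (u + ud d) (u' + ud d)
    rw [add_sub_add_right_eq_sub] at h4
    have h5 : nrm (u' + ud d - ud d) ≤ nrm (u' + ud d) + nrm (ud d) := nrm_sub_le _ _
    have h6 : nrm (u + ud d - ud d) ≤ nrm (u + ud d) + nrm (ud d) := nrm_sub_le _ _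
    rw [add_sub_cancel_right, nrm_ud] at h5 h6
    omega
  · rw [hG, card_dball, show 2 * e + 1 = 2 * (e + 1) - 1 by omega, ← bound_odd m (e + 1) (by omega)]

private theorem mon_char {G : Type} [AddCommGroup G] {m : ℕ} (a : Fin m → G) (χ : AddChar G ℂ)
    (v : Fin m → ℤ) : mon (fun i => χ (a i)) v = χ (∑ i, v i • a i) := by
  unfold mon
  rw [addChar_map_sum]
  refine prod_congr rfl fun i _ => ?_
  rw [AddChar.map_zsmul_eq_zpow]

theorem char_ne_zero {G : Type} [AddCommGroup G] (χ : AddChar G ℂ) (g : G) : χ g ≠ 0 := by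
  intro h0
  have h1 : χ (g + -g) = 1 := by rw [add_neg_cancel, AddChar.map_zero_eq_one]
  rw [AddChar.map_add_eq_mul, h0, zero_mul] at h1
  exact zero_ne_one h1

theorem odd_eq {G : Type} [AddCommGroup G] [Fintype G] {m : ℕ} (e : ℕ) (a : Fin (m + 1) → G)
    (h : ∀ v ∈ rel a, v ≠ 0 → 2 * e + 2 ≤ nrm v) (hG : Fintype.card G = bound (m + 1) (2 * e + 1))
    (χ : AddChar G ℂ) (hχ : ∃ g, χ g ^ 2 ≠ 1) :
    PowerSeries.coeff e (EE (fun i => χ (a i)) * geo2) = 0 := by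
  have hx : ∀ i, χ (a i) ≠ 0 := fun i => char_ne_zero χ _
  have hχ1 : χ ≠ 1 := by
    rintro rfl
    obtain ⟨g, hg⟩ := hχ
    apply hg
    rw [AddChar.one_apply, one_pow]
  have hsum : ∀ d : Fin (m + 1) × Bool, ∑ v ∈ dball (e + 1) d, mon (fun i => χ (a i)) v = 0 := by
    intro d
    rw [← AddChar.sum_eq_zero_of_ne_one hχ1, ← (dball_sum e a h hG d).2 (fun g => χ g)]
    exact sum_congr rfl fun v _ => mon_char a χ v
  have hi : ∃ i, χ (a i) ^ 2 ≠ 1 := by
    by_contra hno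
    push Not at hno
    obtain ⟨g, hg⟩ := hχ
    apply hg
    obtain ⟨u, -, hu⟩ := (dball_sum e a h hG (0, true)).1 g
    rw [← hu, addChar_map_sum, ← prod_pow]
    refine prod_eq_one fun i _ => ?_
    rw [AddChar.map_zsmul_eq_zpow, ← zpow_natCast, ← zpow_mul, mul_comm, zpow_mul, zpow_natCast,
      hno i, one_zpow]
  obtain ⟨i, hi⟩ := hi
  have h3 := coeff_geo2 (fun i => χ (a i)) i e (hx i)
  rw [← dball_diff (fun i => χ (a i)) i e (hx i), hsum, hsum, sub_zero] at h3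
  rcases mul_eq_zero.1 h3 with h4 | h4
  · exfalso
    apply hi
    have h5 : χ (a i) = (χ (a i))⁻¹ := sub_eq_zero.1 h4
    rw [pow_two]
    nth_rw 2 [h5]
    exact mul_inv_cancel₀ (hx i)
  · exact h4

/-- the elements of a tight set in `ℤ_n` are odd -/
theorem odd_val {n : ℕ} [NeZero n] {m : ℕ} (e : ℕ) (a : Fin (m + 1) → ZMod n)
    (h : ∀ v ∈ rel a, v ≠ 0 → 2 * e + 2 ≤ nrm v)
    (hG : Fintype.card (ZMod n) = bound (m + 1) (2 * e + 1)) (i : Fin (m + 1)) :
    Odd (a i).val := by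
  have hL : Lat (m + 1) (e + 1) (2 * (e + 1)) (rel a) := by
    have := lat_of_family (2 * e + 1) (by omega) a (by omega) (fun v hv hv0 => h v hv hv0) hG
    have e1 : (2 * e + 1) / 2 + 1 = e + 1 := by omega
    rw [e1] at this
    exact this
  obtain ⟨u, -, hu⟩ := (dball_sum e a h hG (0, true)).1 1
  have h1 : (fun j => ((a i).val : ℤ) * u j - (if j = i then 1 else 0)) ∈ rel a := by
    show ∑ j, (((a i).val : ℤ) * u j - (if j = i then 1 else 0)) • a j = 0
    simp only [sub_smul, mul_smul, Finset.sum_sub_distrib, ← Finset.smul_sum, hu, ite_smul,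
      one_smul, zero_smul, Finset.sum_ite_eq', Finset.mem_univ, if_true]
    simp
  have h2 := T7.even_sum hL _ h1
  rw [Finset.sum_sub_distrib, ← Finset.mul_sum, Finset.sum_ite_eq' Finset.univ i,
    if_pos (Finset.mem_univ _)] at h2
  have h3 : Odd (((a i).val : ℤ) * ∑ j, u j) := by
    have := h2.add_odd (odd_one : Odd (1 : ℤ))
    simpa using this
  have h4 := (Int.odd_mul.1 h3).1
  exact_mod_cast h4

/-- `8` divides `b (m, 8 f - 1)` -/
theorem eight_dvd_bound (m e : ℕ) (he : e % 4 = 3) : 8 ∣ bound m (2 * e + 1) := by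
  obtain ⟨f, rfl⟩ : ∃ f, e = 4 * f + 3 := ⟨e / 4, by omega⟩
  have h1 : ¬ Even (2 * (4 * f + 3) + 1) := by
    rw [Nat.not_even_iff_odd]
    exact ⟨4 * f + 3, by ring⟩
  have h2 : (2 * (4 * f + 3) + 1 + 1) / 2 = 4 * (f + 1) := by omega
  unfold bound
  rw [if_neg h1, h2]
  refine Finset.dvd_sum fun i hi => ?_
  rw [Finset.mem_Icc] at hi
  rcases (show i = 1 ∨ i = 2 ∨ 3 ≤ i by omega) with rfl | rfl | h3
  · rw [Nat.choose_one_right]
    exact ⟨(m - 1).choose (1 - 1) * (f + 1), by ring⟩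
  · have h5 : (4 * (f + 1)).choose 2 = 2 * ((f + 1) * (4 * (f + 1) - 1)) := by
      rw [Nat.choose_two_right, show 4 * (f + 1) * (4 * (f + 1) - 1) =
        2 * (2 * ((f + 1) * (4 * (f + 1) - 1))) by ring, Nat.mul_div_cancel_left _ two_pos]
    rw [h5]
    exact ⟨(m - 1).choose (2 - 1) * ((f + 1) * (4 * (f + 1) - 1)), by ring⟩
  · obtain ⟨j, rfl⟩ : ∃ j, i = j + 3 := ⟨i - 3, by omega⟩
    exact ⟨(m - 1).choose (j + 3 - 1) * (4 * (f + 1)).choose (j + 3) * 2 ^ j, by rw [pow_add]; ring⟩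

end TightIndep.T8
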