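import Mathlib

/-!
# T8-Val: 2-adic valuations
-/

namespace TightIndep.T8

open Finset Polynomial

/-- `2 ^ (r + 2)` divides `2 ^ (2 b + 1) C (f + b + 1, 2 b + 1)` if `2 ^ r` divides `f + 1`, `b ≥ 1` -/
theorem choose_dvd (f b r : ℕ) (hb : 1 ≤ b) (hr : 2 ^ r ∣ f + 1) :
    2 ^ (r + 2) ∣ 2 ^ (2 * b + 1) * (f + b + 1).choose (2 * b + 1) := by
  have h1 : f + 1 ∣ (f + b + 1).descFactorial (2 * b + 1) := by
    rw [Nat.descFactorial_eq_prod_range]
    have h2 : f + b + 1 - b = f + 1 := by omega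
    have h3 := Finset.dvd_prod_of_mem (fun i => f + b + 1 - i)
      (Finset.mem_range.2 (show b < 2 * b + 1 by omega))
    simp only [h2] at h3
    exact h3
  rw [Nat.descFactorial_eq_factorial_mul_choose] at h1
  have h2 : 2 ^ r ∣ (2 * b + 1).factorial * (f + b + 1).choose (2 * b + 1) := hr.trans h1
  rw [Nat.factorial_succ] at h2
  obtain ⟨w, o, ho, hw⟩ := Nat.exists_eq_two_pow_mul_odd (Nat.factorial_ne_zero (2 * b))
  have hw2 : w < 2 * b := by
    have h3 := Nat.emultiplicity_two_factorial_lt (n := 2 * b) (by omega)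
    have h4 : (w : ℕ∞) ≤ emultiplicity 2 (2 * b).factorial := by
      rw [← pow_dvd_iff_le_emultiplicity, hw]
      exact dvd_mul_right _ _
    exact_mod_cast h4.trans_lt h3
  rw [hw] at h2
  have h3 : 2 ^ r ∣ 2 ^ w * (f + b + 1).choose (2 * b + 1) := by
    have h4 : (2 * b + 1) * (2 ^ w * o) * (f + b + 1).choose (2 * b + 1) =
        ((2 * b + 1) * o) * (2 ^ w * (f + b + 1).choose (2 * b + 1)) := by ring
    rw [h4] at h2
    refine Nat.Coprime.dvd_of_dvd_mul_left (Nat.Coprime.pow_left _ ?_) h2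
    have h5 : Odd ((2 * b + 1) * o) := Nat.odd_mul.2 ⟨⟨b, rfl⟩, ho⟩
    exact Nat.coprime_two_left.2 h5
  obtain ⟨c, hc⟩ := h3
  obtain ⟨d, hd⟩ : ∃ d, 2 * b + 1 = w + 2 + d := ⟨2 * b + 1 - (w + 2), by omega⟩
  rw [show (2 : ℕ) ^ (2 * b + 1) = 2 ^ w * (4 * 2 ^ d) by rw [hd]; ring]
  exact ⟨c * 2 ^ d, by
    calc 2 ^ w * (4 * 2 ^ d) * (f + b + 1).choose (2 * b + 1) =
        (2 ^ w * (f + b + 1).choose (2 * b + 1)) * (4 * 2 ^ d) := by ring
      _ = 2 ^ (r + 2) * (c * 2 ^ d) := by rw [hc]; ring⟩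

theorem coeff_pow (N k : ℕ) : ∃ u : ℤ, (u = 1 ∨ u = -1) ∧
    (((1 - X : Polynomial ℤ)) ^ N).coeff k = u * N.choose k := by
  have h1 : (1 - X : Polynomial ℤ) ^ N = C ((-1) ^ N) * (X + C (-1)) ^ N := by
    have h2 : (1 - X : Polynomial ℤ) = C (-1) * (X + C (-1)) := by
      rw [C_neg, C_1]
      ring
    rw [map_pow, ← mul_pow, ← h2]
  refine ⟨(-1) ^ N * (-1) ^ (N - k), ?_, ?_⟩
  · rcases neg_one_pow_eq_or ℤ N with h | h <;> rcases neg_one_pow_eq_or ℤ (N - k) with h' | h' <;>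
      rw [h, h'] <;> norm_num
  · rw [h1, coeff_C_mul, coeff_X_add_C_pow]
    ring

/-- `C (N, k)` is even if `N` is even and `k` is odd -/
theorem choose_even (N k : ℕ) (hN : Even N) (hk : Odd k) : Even (N.choose k) := by
  obtain ⟨l, rfl⟩ := hk
  rcases Nat.eq_zero_or_pos N with h0 | h0
  · subst h0
    exact ⟨0, Nat.choose_eq_zero_of_lt (by omega)⟩
  obtain ⟨q, rfl⟩ : ∃ q, N = q + 1 := ⟨N - 1, by omega⟩
  have h1 := Nat.add_one_mul_choose_eq q (2 * l)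
  have h2 : Even ((q + 1).choose (2 * l + 1) * (2 * l + 1)) := by
    rw [← h1]
    exact hN.mul_right _
  rcases Nat.even_mul.1 h2 with h3 | h3
  · exact h3
  · exfalso
    rw [Nat.even_add_one] at h3
    exact h3 (even_two_mul l)

/-- the coefficients of `(1 - X) ^ N ((2 j + 1) + 4 W)` -/
theorem phi_coeff (N j : ℕ) (W : Polynomial ℤ) (k : ℕ) : ∃ (u : ℤ) (w : ℤ), (u = 1 ∨ u = -1) ∧
    ((1 - X : Polynomial ℤ) ^ N * (C (2 * (j : ℤ) + 1) + 4 * W)).coeff k =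
      u * (2 * j + 1) * N.choose k + 4 * w := by
  obtain ⟨u, hu, h⟩ := coeff_pow N k
  refine ⟨u, ((1 - X : Polynomial ℤ) ^ N * W).coeff k, hu, ?_⟩
  have h4 : (4 : Polynomial ℤ) = C 4 := by simp
  rw [mul_add, coeff_add, coeff_mul_C, h, mul_left_comm, h4, coeff_C_mul]
  ring

/-- the integers `c k` -/
def cI (f k : ℕ) : ℤ :=
  if 2 * k ≤ 4 * f + 2 then
    (if 4 ∣ 4 * f + 2 - 2 * k then (-1) ^ ((4 * f + 2 - 2 * k) / 4) *
      ((k + (4 * f + 2 - 2 * k) / 4).choose k : ℤ) else 0)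
  else 0

theorem cI_even (f b : ℕ) : cI f (2 * b) = 0 := by
  unfold cI
  split_ifs with h1 h2
  · omega
  · rfl
  · rfl

theorem cI_odd (f b : ℕ) (hb : b ≤ f) :
    cI f (2 * b + 1) = (-1) ^ (f - b) * ((f + b + 1).choose (2 * b + 1) : ℤ) := by
  unfold cI
  have e1 : 4 * f + 2 - 2 * (2 * b + 1) = 4 * (f - b) := by omega
  rw [if_pos (by omega), e1, if_pos (dvd_mul_right _ _), Nat.mul_div_cancel_left _ (by norm_num)]
  have e2 : 2 * b + 1 + (f - b) = f + b + 1 := by omega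
  rw [e2]

theorem cI_big (f b : ℕ) (hb : f < b) : cI f (2 * b + 1) = 0 := by
  unfold cI
  rw [if_neg (by omega)]

/-- the sum is not zero -/
theorem sum_ne (f N j n : ℕ) (W : Polynomial ℤ) (hn : 2 ≤ n) (hN : N % 4 = 1 ∨ N % 4 = 2 ∨ N % 4 = 3) :
    ∑ k ∈ range n, ((1 - X : Polynomial ℤ) ^ N * (C (2 * (j : ℤ) + 1) + 4 * W)).coeff k * 2 ^ k *
      cI f k ≠ 0 := by
  obtain ⟨φ, hφ⟩ : ∃ φ : Polynomial ℤ,
    φ = (1 - X : Polynomial ℤ) ^ N * (C (2 * (j : ℤ) + 1) + 4 * W) := ⟨_, rfl⟩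
  rw [← hφ]
  -- `d = 1` or `2`
  obtain ⟨d, hd, hdvd⟩ : ∃ d : ℤ, (∃ q : ℤ, φ.coeff 1 = d * (2 * q + 1)) ∧ (d = 1 ∨ d = 2) ∧
      ∀ k, Odd k → d ∣ φ.coeff k := by
    have hj : ∀ k, ∃ (u : ℤ) (w : ℤ), (u = 1 ∨ u = -1) ∧
        φ.coeff k = u * (2 * j + 1) * N.choose k + 4 * w := by
      intro k
      rw [hφ]
      exact phi_coeff N j W k
    obtain ⟨u, w, hu, h1⟩ := hj 1
    rw [Nat.choose_one_right] at h1
    rcases Nat.even_or_odd N with he | ho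
    · refine ⟨2, ?_, Or.inr rfl, ?_⟩
      · obtain ⟨q, hq⟩ : ∃ q, N = 4 * q + 2 := by
          obtain ⟨c, hc⟩ := he
          exact ⟨N / 4, by omega⟩
        rw [h1, hq]
        rcases hu with rfl | rfl
        · exact ⟨j + (2 * j + 1) * q * 1 + w, by push_cast; ring⟩
        · exact ⟨-(j : ℤ) - 1 - (2 * j + 1) * q + w, by push_cast; ring⟩
      · intro k hk
        obtain ⟨u, w, hu, h1⟩ := hj k
        obtain ⟨c, hc⟩ := choose_even N k he hk
        rw [h1, hc]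
        exact ⟨u * (2 * j + 1) * c + 2 * w, by push_cast; ring⟩
    · refine ⟨1, ?_, Or.inl rfl, fun k _ => one_dvd _⟩
      obtain ⟨q, hq⟩ := ho
      rw [h1, hq]
      rcases hu with rfl | rfl
      · exact ⟨j + q + 2 * j * q + 2 * w, by push_cast; ring⟩
      · exact ⟨-(j : ℤ) - 1 - q - 2 * j * q + 2 * w, by push_cast; ring⟩
  obtain ⟨hd12, hall⟩ := hdvd
  obtain ⟨q, hq⟩ := hd
  obtain ⟨r, o, ho, hr⟩ := Nat.exists_eq_two_pow_mul_odd (show f + 1 ≠ 0 by omega)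
  have hd0 : d ≠ 0 := by rcases hd12 with h | h <;> rw [h] <;> norm_num
  -- the terms `k ≠ 1`
  have hterm : ∀ k ∈ (range n).erase 1, d * 2 ^ (r + 2) ∣ φ.coeff k * 2 ^ k * cI f k := by
    intro k hk
    rw [Finset.mem_erase] at hk
    rcases Nat.even_or_odd' k with ⟨b, rfl | rfl⟩
    · rw [cI_even, mul_zero]
      exact dvd_zero _
    · rcases lt_or_ge f b with hb | hb
      · rw [cI_big f b hb, mul_zero]
        exact dvd_zero _
      · rw [cI_odd f b hb]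
        have h1 := choose_dvd f b r (by omega) ⟨o, hr⟩
        have h2 : ((2 : ℤ) ^ (r + 2)) ∣ 2 ^ (2 * b + 1) * ((f + b + 1).choose (2 * b + 1) : ℤ) := by
          exact_mod_cast h1
        have h3 := mul_dvd_mul (hall (2 * b + 1) ⟨b, rfl⟩) h2
        have h4 : φ.coeff (2 * b + 1) * 2 ^ (2 * b + 1) *
            ((-1) ^ (f - b) * ((f + b + 1).choose (2 * b + 1) : ℤ)) =
            φ.coeff (2 * b + 1) * (2 ^ (2 * b + 1) * ((f + b + 1).choose (2 * b + 1) : ℤ)) *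
              (-1) ^ (f - b) := by ring
        rw [h4]
        exact h3.mul_right _
  intro h0
  rw [← Finset.add_sum_erase (range n) _ (Finset.mem_range.2 (show 1 < n by omega))] at h0
  have h1 := Finset.dvd_sum hterm
  have h2 : d * 2 ^ (r + 2) ∣ φ.coeff 1 * 2 ^ 1 * cI f 1 := by
    have : φ.coeff 1 * 2 ^ 1 * cI f 1 =
      -∑ k ∈ (range n).erase 1, φ.coeff k * 2 ^ k * cI f k := by linear_combination h0
    rw [this]
    exact h1.neg_right
  have h3 : cI f 1 = (-1) ^ f * (f + 1 : ℕ) := by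
    have := cI_odd f 0 (Nat.zero_le f)
    rw [mul_zero, zero_add] at this
    rw [this, Nat.sub_zero, Nat.choose_one_right, Nat.add_zero]
  rw [h3, hq, hr] at h2
  have h4 : d * (2 * q + 1) * 2 ^ 1 * ((-1) ^ f * ((2 ^ r * o : ℕ) : ℤ)) =
      (d * 2 ^ (r + 1)) * ((2 * q + 1) * ((-1) ^ f * o)) := by
    push_cast
    ring
  rw [h4, show d * 2 ^ (r + 2) = (d * 2 ^ (r + 1)) * 2 by ring] at h2
  have h5 := (mul_dvd_mul_iff_left (mul_ne_zero hd0 (by positivity))).1 h2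
  have h6 : Odd ((2 * q + 1) * ((-1) ^ f * (o : ℤ))) := by
    refine Int.odd_mul.2 ⟨⟨q, rfl⟩, Int.odd_mul.2 ⟨?_, by exact_mod_cast ho⟩⟩
    exact Odd.pow (by decide)
  rw [← even_iff_two_dvd] at h5
  exact (Int.not_even_iff_odd.2 h6) h5

end TightIndep.T8
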