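import Pool.Agent.Lib.MP_f31b39_co.AS.Defs
import Pool.Agent.Lib.MP_f31b39_co.T8.Val

/-!
# T8-Ser: the power series of a character of order 8
-/

namespace TightIndep.T8

open Finset

/-- `(1 + z ^ 4) ^ (- (k + 1))` -/
noncomputable def JJ (k : ℕ) : PowerSeries ℂ :=
  PowerSeries.mk fun n => if 4 ∣ n then (-1) ^ (n / 4) * ((k + n / 4).choose k : ℂ) else 0

section
open PowerSeries

theorem JJ_zero : (1 + X ^ 4) * JJ 0 = 1 := by
  ext n
  rw [add_mul, one_mul, map_add, coeff_X_pow_mul', coeff_one]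
  unfold JJ
  simp only [coeff_mk, Nat.choose_zero_right, Nat.cast_one, mul_one]
  by_cases h4 : 4 ≤ n
  · obtain ⟨q, rfl⟩ : ∃ q, n = q + 4 := ⟨n - 4, by omega⟩
    have e1 : q + 4 - 4 = q := by omega
    have e2 : (q + 4) / 4 = q / 4 + 1 := by omega
    have e3 : 4 ∣ q + 4 ↔ 4 ∣ q := by omega
    rw [if_pos h4, if_neg (by omega : ¬ q + 4 = 0), e1, e2]
    simp only [e3]
    by_cases hq : 4 ∣ q
    · rw [if_pos hq, if_pos hq]
      ring
    · rw [if_neg hq, if_neg hq, add_zero]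
  · rw [if_neg h4, add_zero]
    by_cases h0 : n = 0
    · subst h0
      simp
    · rw [if_neg h0, if_neg (by omega)]

theorem JJ_succ (k : ℕ) : (1 + X ^ 4) * JJ (k + 1) = JJ k := by
  ext n
  rw [add_mul, one_mul, map_add, coeff_X_pow_mul']
  unfold JJ
  simp only [coeff_mk]
  by_cases h4 : 4 ≤ n
  · obtain ⟨q, rfl⟩ : ∃ q, n = q + 4 := ⟨n - 4, by omega⟩
    have e1 : q + 4 - 4 = q := by omega
    have e2 : (q + 4) / 4 = q / 4 + 1 := by omega
    have e3 : 4 ∣ q + 4 ↔ 4 ∣ q := by omega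
    rw [if_pos h4, e1, e2]
    simp only [e3]
    by_cases hq : 4 ∣ q
    · rw [if_pos hq, if_pos hq, if_pos hq]
      have h5 : (k + 1 + (q / 4 + 1)).choose (k + 1) = (k + 1 + q / 4).choose k +
          (k + 1 + q / 4).choose (k + 1) := by
        rw [show k + 1 + (q / 4 + 1) = (k + 1 + q / 4) + 1 by ring, Nat.choose_succ_succ]
      rw [h5, show k + (q / 4 + 1) = k + 1 + q / 4 by ring]
      push_cast
      ring
    · rw [if_neg hq, if_neg hq, if_neg hq, add_zero]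
  · rw [if_neg h4, add_zero]
    by_cases hq : 4 ∣ n
    · have : n = 0 := by omega
      subst this
      simp
    · rw [if_neg hq, if_neg hq]

theorem JJ_eq (k : ℕ) : JJ k = JJ 0 ^ (k + 1) := by
  induction k with
  | zero => rw [zero_add, pow_one]
  | succ k ih =>
    have h1 : JJ (k + 1) = ((1 + X ^ 4) * JJ 0) * JJ (k + 1) := by rw [JJ_zero, one_mul]
    rw [h1, show (1 + X ^ 4) * JJ 0 * JJ (k + 1) = JJ 0 * ((1 + X ^ 4) * JJ (k + 1)) by ring,
      JJ_succ, ih]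
    ring

/-- `y = 2 z ^ 2 / (1 + z ^ 4)` -/
noncomputable def yy : PowerSeries ℂ := 2 * X ^ 2 * JJ 0

/-- `κ = γ z (1 + z ^ 2) / (1 + z ^ 4)` -/
noncomputable def kk (γ : ℂ) : PowerSeries ℂ := C γ * X * (1 + X ^ 2) * JJ 0

theorem C_sq {γ : ℂ} (hγ : γ ^ 2 = 2) : (C γ : PowerSeries ℂ) ^ 2 = 2 := by
  rw [← map_pow, hγ, map_ofNat]

theorem one_sub_yy : (1 - X ^ 2) ^ 2 * JJ 0 = 1 - yy := by
  unfold yy
  linear_combination JJ_zero

theorem one_add_yy : (1 + X ^ 2) ^ 2 * JJ 0 = 1 + yy := by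
  unfold yy
  linear_combination JJ_zero

theorem tp_sq {γ : ℂ} (hγ : γ ^ 2 = 2) : (1 + C γ * X + X ^ 2) ^ 2 * JJ 0 = 1 + 2 * yy + 2 * kk γ := by
  unfold yy kk
  linear_combination JJ_zero + X ^ 2 * JJ 0 * C_sq hγ

theorem kk_sq {γ : ℂ} (hγ : γ ^ 2 = 2) : kk γ * kk γ = yy * (1 + yy) := by
  rw [← one_add_yy]
  unfold yy kk
  linear_combination X ^ 2 * (1 + X ^ 2) ^ 2 * JJ 0 ^ 2 * C_sq hγ

theorem kk_mul_th {γ : ℂ} (hγ : γ ^ 2 = 2) : kk γ * (C γ * X) = yy * (1 + X ^ 2) := by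
  unfold yy kk
  linear_combination X ^ 2 * (1 + X ^ 2) * JJ 0 * C_sq hγ

theorem kk_mul_z {γ : ℂ} : kk γ * (1 + X ^ 2) = C γ * X * (1 + yy) := by
  rw [← one_add_yy]
  unfold kk
  ring

end

open Polynomial in
/-- the powers of `1 + 2 y + 2 κ` -/
theorem pow_expand {γ : ℂ} (hγ : γ ^ 2 = 2) (j : ℕ) : ∃ P Q : Polynomial ℤ,
    (1 + 2 * yy + 2 * kk γ) ^ j =
      aeval yy (1 + C (2 * (j : ℤ)) * X + 4 * P) + kk γ * aeval yy (C (2 * (j : ℤ)) + 4 * Q) := by
  induction j with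
  | zero => exact ⟨0, 0, by simp⟩
  | succ j ih =>
    obtain ⟨P, Q, h⟩ := ih
    refine ⟨P + C (j : ℤ) * X ^ 2 + 2 * X * P + C (j : ℤ) * X * (1 + X) + 2 * X * (1 + X) * Q,
      C (j : ℤ) * X + 2 * P + C (j : ℤ) * X + Q + 2 * X * Q, ?_⟩
    rw [pow_succ, h]
    have h2 := kk_sq hγ
    simp only [map_add, map_mul, map_pow, map_one, map_ofNat, aeval_C, aeval_X, Nat.cast_add,
      Nat.cast_one, algebraMap_int_eq, eq_intCast, Int.cast_mul, Int.cast_add, Int.cast_one,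
      Int.cast_ofNat, Int.cast_natCast, map_natCast]
    linear_combination (2 * (2 * (j : PowerSeries ℂ) + 4 * aeval yy Q)) * h2

open Polynomial in
/-- the series is the sum of an even and an odd part -/
theorem split {γ : ℂ} (hγ : γ ^ 2 = 2) (N j : ℕ) : ∃ W V : Polynomial ℤ,
    (1 - yy) ^ N * (1 + 2 * yy + 2 * kk γ) ^ j * (1 + PowerSeries.C γ * PowerSeries.X +
        PowerSeries.X ^ 2) * JJ 0 =
      (1 + PowerSeries.X ^ 2) * (JJ 0 * aeval yy V) + PowerSeries.C γ * PowerSeries.X *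
        (JJ 0 * aeval yy ((1 - X : Polynomial ℤ) ^ N * (C (2 * (j : ℤ) + 1) + 4 * W))) := by
  obtain ⟨P, Q, h⟩ := pow_expand hγ j
  refine ⟨C (j : ℤ) * X + P + (1 + X) * Q,
    (1 - X) ^ N * ((1 + C (2 * (j : ℤ)) * X + 4 * P) + X * (C (2 * (j : ℤ)) + 4 * Q)), ?_⟩
  rw [h]
  have h2 := kk_mul_th hγ
  have h3 := kk_mul_z (γ := γ)
  simp only [map_add, map_mul, map_pow, map_sub, map_one, map_ofNat, aeval_C, aeval_X,
    algebraMap_int_eq, eq_intCast, Int.cast_mul, Int.cast_add, Int.cast_one,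
    Int.cast_ofNat, Int.cast_natCast, map_natCast]
  linear_combination (1 - yy) ^ N * JJ 0 * (2 * (j : PowerSeries ℂ) + 4 * aeval yy Q) * (h2 + h3)

open Polynomial in
theorem coeff_aeval (P : Polynomial ℤ) (n d : ℕ) (hd : P.natDegree < d) :
    PowerSeries.coeff n (JJ 0 * aeval yy P) =
      ∑ k ∈ range d, (P.coeff k : ℂ) * 2 ^ k * (if 2 * k ≤ n then PowerSeries.coeff (n - 2 * k) (JJ k)
        else 0) := by
  rw [aeval_eq_sum_range' hd, Finset.mul_sum, map_sum]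
  refine Finset.sum_congr rfl fun k _ => ?_
  rw [Algebra.smul_def, eq_intCast]
  have h1 : JJ 0 * (((P.coeff k : ℤ) : PowerSeries ℂ) * yy ^ k) =
      PowerSeries.C ((P.coeff k : ℂ) * 2 ^ k) * (PowerSeries.X ^ (2 * k) * JJ k) := by
    rw [JJ_eq k]
    unfold yy
    rw [mul_pow, mul_pow, map_mul, map_pow, map_ofNat, pow_succ, pow_mul]
    have : ((P.coeff k : ℤ) : PowerSeries ℂ) = PowerSeries.C ((P.coeff k : ℤ) : ℂ) := by
      rw [map_intCast]
    rw [this]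
    ring
  rw [h1, PowerSeries.coeff_C_mul, PowerSeries.coeff_X_pow_mul']

open Polynomial in
theorem coeff_odd_zero (P : Polynomial ℤ) (n : ℕ) (hn : Odd n) :
    PowerSeries.coeff n (JJ 0 * aeval yy P) = 0 := by
  rw [coeff_aeval P n (P.natDegree + 1) (Nat.lt_succ_self _)]
  refine Finset.sum_eq_zero fun k _ => ?_
  obtain ⟨c, hc⟩ := hn
  split_ifs with h
  · unfold JJ
    rw [PowerSeries.coeff_mk, if_neg (by omega), mul_zero]
  · rw [mul_zero]

open Polynomial in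
theorem coeff_main (P : Polynomial ℤ) (f d : ℕ) (hd : P.natDegree < d) :
    PowerSeries.coeff (4 * f + 2) (JJ 0 * aeval yy P) =
      ((∑ k ∈ range d, P.coeff k * 2 ^ k * cI f k : ℤ) : ℂ) := by
  rw [coeff_aeval P _ d hd, Int.cast_sum]
  refine Finset.sum_congr rfl fun k _ => ?_
  rw [Int.cast_mul, Int.cast_mul, Int.cast_pow, Int.cast_ofNat]
  congr 1
  unfold cI JJ
  rw [PowerSeries.coeff_mk]
  split_ifs <;> push_cast <;> rfl

/-- the coefficient is not zero -/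
theorem coeff_ne {γ : ℂ} (hγ : γ ^ 2 = 2) (f N j : ℕ)
    (hN : N % 4 = 1 ∨ N % 4 = 2 ∨ N % 4 = 3) :
    PowerSeries.coeff (4 * f + 3) ((1 - yy) ^ N * (1 + 2 * yy + 2 * kk γ) ^ j *
      (1 + PowerSeries.C γ * PowerSeries.X + PowerSeries.X ^ 2) * JJ 0) ≠ 0 := by
  obtain ⟨W, V, h⟩ := split hγ N j
  rw [h, map_add, add_mul, one_mul, map_add, PowerSeries.coeff_X_pow_mul',
    coeff_odd_zero V (4 * f + 3) ⟨2 * f + 1, by ring⟩, if_pos (by omega),
    coeff_odd_zero V (4 * f + 3 - 2) ⟨2 * f, by omega⟩, add_zero, zero_add, mul_assoc,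
    PowerSeries.coeff_C_mul, show 4 * f + 3 = (4 * f + 2) + 1 by ring,
    PowerSeries.coeff_succ_X_mul]
  set P : Polynomial ℤ := (1 - Polynomial.X : Polynomial ℤ) ^ N *
    (Polynomial.C (2 * (j : ℤ) + 1) + 4 * W) with hP
  rw [coeff_main P f (P.natDegree + 2) (by omega)]
  refine mul_ne_zero ?_ ?_
  · rintro rfl
    norm_num at hγ
  · rw [Int.cast_ne_zero, hP]
    exact sum_ne f N j _ W (by omega) hN

end TightIndep.T8
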