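import Pool.Agent.Lib.MP_f31b39_co.T8.Eq
import Pool.Agent.Lib.MP_f31b39_co.T8.Ser

/-!
# T8-Main: no tight `t`-independent set of size `m` in `ℤ_n` if `t ≡ 7` modulo `8` and `m ≡ 3, 5, 7` modulo `8`
-/

namespace TightIndep.T8

open Finset

section
open PowerSeries

theorem tt_mul (x γ : ℂ) (hx : x ≠ 0) (h : x + x⁻¹ = γ) :
    (1 - C γ * X + X ^ 2) * TT x = 1 - X ^ 2 := by
  subst h
  rw [add_mul, sub_mul, one_mul]
  ext n
  rw [map_add, map_sub, mul_assoc, coeff_C_mul, coeff_X_pow_mul', map_sub]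
  rcases n with _ | _ | _ | n
  · simp [TT]
  · rw [coeff_succ_X_mul]
    simp [TT, coeff_X_pow, coeff_one]
  · rw [coeff_succ_X_mul]
    simp [TT, coeff_X_pow, coeff_one]
    field_simp
    ring
  · rw [coeff_succ_X_mul]
    have e1 : n + 1 + 1 + 1 - 2 = n + 1 := by omega
    simp [TT, coeff_X_pow, coeff_one, e1]
    field_simp
    ring

theorem geo2_mul : (1 - X ^ 2) * geo2 = 1 := by
  ext n
  rw [sub_mul, one_mul, map_sub, coeff_X_pow_mul']
  rcases n with _ | _ | n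
  · simp [geo2]
  · simp [geo2, coeff_one]
  · have e1 : n + 1 + 1 - 2 = n := by omega
    have e2 : Even (n + 1 + 1) ↔ Even n := by
      rw [show n + 1 + 1 = n + 2 by ring, Nat.even_add]; simp
    simp [geo2, coeff_one, e1, e2]

theorem ee_mul {M : ℕ} (x : Fin M → ℂ) (γ : ℂ) (hx : ∀ i, x i ≠ 0)
    (h : ∀ i, x i + (x i)⁻¹ = γ ∨ x i + (x i)⁻¹ = -γ) :
    ∃ u v : ℕ, u + v = M ∧
      EE x * (1 - C γ * X + X ^ 2) ^ u * (1 + C γ * X + X ^ 2) ^ v = (1 - X ^ 2) ^ M := by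
  have key : ∀ s : Finset (Fin M), ∃ u v : ℕ, u + v = s.card ∧
      (∏ i ∈ s, TT (x i)) * (1 - C γ * X + X ^ 2) ^ u * (1 + C γ * X + X ^ 2) ^ v =
        (1 - X ^ 2) ^ s.card := by
    intro s
    induction s using Finset.induction_on with
    | empty => exact ⟨0, 0, by simp, by simp⟩
    | insert i s hi ih =>
      obtain ⟨u, v, huv, hp⟩ := ih
      rw [Finset.prod_insert hi, Finset.card_insert_of_notMem hi]
      rcases h i with h1 | h1
      · refine ⟨u + 1, v, by omega, ?_⟩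
        have h2 := tt_mul (x i) γ (hx i) h1
        rw [pow_succ (1 - X ^ 2 : PowerSeries ℂ), ← hp, ← h2]
        ring
      · refine ⟨u, v + 1, by omega, ?_⟩
        have h2 := tt_mul (x i) (-γ) (hx i) h1
        rw [map_neg] at h2
        rw [pow_succ (1 - X ^ 2 : PowerSeries ℂ), ← hp, ← h2]
        ring
  obtain ⟨u, v, huv, hp⟩ := key Finset.univ
  rw [Finset.card_univ, Fintype.card_fin] at huv hp
  exact ⟨u, v, huv, hp⟩

theorem ee_eq {γ : ℂ} (hγ : γ ^ 2 = 2) (E : PowerSeries ℂ) (v j : ℕ)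
    (h : E * (1 - C γ * X + X ^ 2) ^ (v + 2 * j + 1) * (1 + C γ * X + X ^ 2) ^ v =
      (1 - X ^ 2) ^ (2 * v + 2 * j + 1)) :
    E * geo2 = (1 - yy) ^ (v + j) * (1 + 2 * yy + 2 * kk γ) ^ j * (1 + C γ * X + X ^ 2) * JJ 0 := by
  have h1 : (1 - C γ * X + X ^ 2) * (1 + C γ * X + X ^ 2) * JJ 0 = 1 := by
    linear_combination JJ_zero - (X ^ 2 * JJ 0) * C_sq hγ
  rw [← one_sub_yy, ← tp_sq hγ]
  have hg := geo2_mul
  generalize (1 - C γ * X + X ^ 2 : PowerSeries ℂ) = a at *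
  generalize (1 + C γ * X + X ^ 2 : PowerSeries ℂ) = b at *
  generalize (1 - X ^ 2 : PowerSeries ℂ) = s at *
  generalize JJ 0 = I at *
  generalize geo2 = g at *
  calc E * g = E * g * (a * b * I) ^ (v + 2 * j + 1) := by rw [h1, one_pow, mul_one]
    _ = (E * a ^ (v + 2 * j + 1) * b ^ v) * g * (b ^ (2 * j + 1) * I ^ (v + 2 * j + 1)) := by ring
    _ = s ^ (2 * v + 2 * j + 1) * g * (b ^ (2 * j + 1) * I ^ (v + 2 * j + 1)) := by rw [h]
    _ = (s * g) * (s ^ (2 * v + 2 * j) * (b ^ (2 * j + 1) * I ^ (v + 2 * j + 1))) := by ring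
    _ = s ^ (2 * v + 2 * j) * (b ^ (2 * j + 1) * I ^ (v + 2 * j + 1)) := by rw [hg, one_mul]
    _ = (s ^ 2 * I) ^ (v + j) * (b ^ 2 * I) ^ j * b * I := by ring

end

theorem ee_ne {M : ℕ} (x : Fin M → ℂ) (γ : ℂ) (hγ : γ ^ 2 = 2) (hx : ∀ i, x i ≠ 0)
    (h : ∀ i, x i + (x i)⁻¹ = γ ∨ x i + (x i)⁻¹ = -γ) (f : ℕ)
    (hM : M % 8 = 3 ∨ M % 8 = 5 ∨ M % 8 = 7) :
    PowerSeries.coeff (4 * f + 3) (EE x * geo2) ≠ 0 := by
  obtain ⟨u, v, huv, hp⟩ := ee_mul x γ hx h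
  rcases Nat.lt_or_ge v u with hlt | hle
  · obtain ⟨j, hj⟩ : ∃ j, u = v + 2 * j + 1 := ⟨(u - v) / 2, by omega⟩
    have hM2 : M = 2 * v + 2 * j + 1 := by omega
    rw [hj] at hp
    have := ee_eq hγ (EE x) v j (hp.trans
      (congrArg (fun k => (1 - PowerSeries.X ^ 2 : PowerSeries ℂ) ^ k) hM2))
    rw [this]
    exact coeff_ne hγ f (v + j) j (by omega)
  · obtain ⟨j, hj⟩ : ∃ j, v = u + 2 * j + 1 := ⟨(v - u) / 2, by omega⟩
    have hM2 : M = 2 * u + 2 * j + 1 := by omega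
    rw [hj] at hp
    have hp2 := hp.trans (congrArg (fun k => (1 - PowerSeries.X ^ 2 : PowerSeries ℂ) ^ k) hM2)
    have hγ' : (-γ) ^ 2 = 2 := by rw [neg_sq]; exact hγ
    have := ee_eq hγ' (EE x) u j (by
      rw [← hp2, map_neg]
      ring)
    rw [this]
    exact coeff_ne hγ' f (u + j) j (by omega)

theorem family {n : ℕ} [NeZero n] {m : ℕ} (f : ℕ) (a : Fin (m + 1) → ZMod n)
    (h : ∀ v ∈ rel a, v ≠ 0 → 2 * (4 * f + 3) + 2 ≤ nrm v)
    (hG : Fintype.card (ZMod n) = bound (m + 1) (2 * (4 * f + 3) + 1))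
    (hm : (m + 1) % 8 = 3 ∨ (m + 1) % 8 = 5 ∨ (m + 1) % 8 = 7) : False := by
  have h8 : 8 ∣ n := by
    have h1 := eight_dvd_bound (m + 1) (4 * f + 3) (by omega)
    rw [← hG, ZMod.card] at h1
    exact h1
  obtain ⟨ω, hω⟩ : ∃ ω : ℂ, IsPrimitiveRoot ω 8 := ⟨_, Complex.isPrimitiveRoot_exp 8 (by norm_num)⟩
  have hω8 : ω ^ 8 = 1 := hω.pow_eq_one
  have hω4 : ω ^ 4 = -1 := by
    have h1 : (ω ^ 4 - 1) * (ω ^ 4 + 1) = 0 := by linear_combination hω8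
    rcases mul_eq_zero.1 h1 with h2 | h2
    · exfalso
      have h3 := (hω.pow_eq_one_iff_dvd 4).1 (sub_eq_zero.1 h2)
      omega
    · exact eq_neg_of_add_eq_zero_left h2
  have hω0 : ω ≠ 0 := by
    rintro rfl
    norm_num at hω8
  have hinv : ω⁻¹ = -ω ^ 3 := by
    apply inv_eq_of_mul_eq_one_right
    linear_combination -hω4
  have hγ : (ω + ω⁻¹) ^ 2 = 2 := by
    rw [hinv]
    linear_combination (-2 + ω ^ 2) * hω4
  have hn1 : ω ^ n = 1 := by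
    rw [hω.pow_eq_one_iff_dvd]
    exact h8
  have h0 := odd_eq (4 * f + 3) a h hG (AddChar.zmodChar n hn1) ⟨1, by
    rw [AddChar.zmodChar_apply]
    have h2 : (1 : ZMod n).val = 1 := by
      rw [ZMod.val_one_eq_one_mod]
      apply Nat.mod_eq_of_lt
      have h3 := Nat.le_of_dvd (Nat.pos_of_ne_zero (NeZero.ne n)) h8
      omega
    rw [h2, pow_one]
    intro h5
    have h6 := (hω.pow_eq_one_iff_dvd 2).1 h5
    omega⟩
  refine ee_ne (fun i => AddChar.zmodChar n hn1 (a i)) (ω + ω⁻¹) hγ (fun i => char_ne_zero _ _) ?_ f hm h0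
  intro i
  have hodd := odd_val (4 * f + 3) a h hG i
  rw [AddChar.zmodChar_apply]
  obtain ⟨k, hk⟩ : ∃ k, k = (a i).val := ⟨_, rfl⟩
  rw [← hk] at hodd ⊢
  have hmod : ω ^ k = ω ^ (k % 8) := by
    conv_lhs => rw [← Nat.div_add_mod k 8]
    rw [pow_add, pow_mul, hω8, one_pow, one_mul]
  rw [hmod]
  have hk8 : k % 8 = 1 ∨ k % 8 = 3 ∨ k % 8 = 5 ∨ k % 8 = 7 := by
    rw [Nat.odd_iff] at hodd
    omega
  have e3 : (ω ^ 3)⁻¹ = -ω := by
    apply inv_eq_of_mul_eq_one_right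
    linear_combination -hω4
  have e5 : (ω ^ 5)⁻¹ = ω ^ 3 := by
    apply inv_eq_of_mul_eq_one_right
    linear_combination hω8
  have e7 : (ω ^ 7)⁻¹ = ω := by
    apply inv_eq_of_mul_eq_one_right
    linear_combination hω8
  rcases hk8 with h1 | h1 | h1 | h1 <;> rw [h1]
  · left
    rw [pow_one]
  · right
    rw [e3, hinv]
    ring
  · right
    rw [e5, hinv]
    linear_combination ω * hω4
  · left
    rw [e7, hinv]
    linear_combination ω ^ 3 * hω4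

/-- the theorem for sets -/
theorem main {n : ℕ} [NeZero n] (t : ℕ) (A : Finset (ZMod n)) (ht : t % 8 = 7)
    (hm : A.card % 8 = 3 ∨ A.card % 8 = 5 ∨ A.card % 8 = 7) : ¬ Tight t A := by
  rintro ⟨hI, hG⟩
  obtain ⟨a, ha⟩ := fam_rel t A hI
  obtain ⟨f, rfl⟩ : ∃ f, t = 2 * (4 * f + 3) + 1 := ⟨t / 8, by omega⟩
  obtain ⟨m, hm'⟩ : ∃ m, A.card = m + 1 := ⟨A.card - 1, by omega⟩
  clear hI
  revert a
  generalize A.card = k at *
  subst hm'
  intro a ha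
  exact family f a ha hG hm

end TightIndep.T8
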